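import Pool.Agent.H11.T4.Stmts

/-!
# Project T4, module FLP: a flip induces a homeomorphism of cones
-/

open Finset

namespace Pool.T4

/-- the flip map -/
noncomputable def flpMap {n : ℕ} (A B : Finset (Fin n)) (hA : A.Nonempty) (x : Fin n → ℝ) :
    Fin n → ℝ :=
  fun i => x i - (if i ∈ A then A.inf' hA x else 0) + (if i ∈ B then A.inf' hA x else 0)

theorem flp_symm {n : ℕ} {L L' : Set (Finset (Fin n))} {A B : Finset (Fin n)}
    (h : IsFlip L L' A B) : IsFlip L' L B A where
  hA := h.hB
  hB := h.hA
  disj := h.disj.symm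
  star := by
    intro s hs hB
    rw [Finset.union_comm]
    rcases (h.new s).1 hs with h1 | h1
    · exact absurd hB (h.noB s h1.1)
    · exact h1.2.1
  noB := by
    intro s hs
    rcases (h.new s).1 hs with h1 | h1
    · exact h1.2
    · exact h1.2.2
  full := by
    intro s hs hA
    rw [Finset.union_comm] at hs
    rw [h.new]
    by_cases hB : B ⊆ s
    · exact Or.inr ⟨hB, hs, hA⟩
    · exact Or.inl ⟨h.full s hs hB, hA⟩
  new := by
    intro s
    constructor
    · intro hs
      by_cases hA : A ⊆ s
      · refine Or.inr ⟨hA, ?_, h.noB s hs⟩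
        rw [Finset.union_comm]
        exact h.star s hs hA
      · exact Or.inl ⟨(h.new s).2 (Or.inl ⟨hs, hA⟩), h.noB s hs⟩
    · rintro (⟨h1, h2⟩ | ⟨h1, h2, h3⟩)
      · rcases (h.new s).1 h1 with h4 | h4
        · exact h4.1
        · exact absurd h4.1 h2
      · rw [Finset.union_comm] at h2
        exact h.full s h2 h3

theorem flp_main {n : ℕ} {L L' : Set (Finset (Fin n))} {A B : Finset (Fin n)}
    (h : IsFlip L L' A B) (x : Fin n → ℝ) (hx : x ∈ Cone L) :
    flpMap A B h.hA x ∈ Cone L' ∧ B.inf' h.hB (flpMap A B h.hA x) = A.inf' h.hA x := by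
  classical
  obtain ⟨hx0, hxL⟩ := hx
  set t := A.inf' h.hA x with ht
  have ht0 : 0 ≤ t := Finset.le_inf' _ _ (fun i _ => hx0 i)
  obtain ⟨a, haA, hat⟩ := Finset.exists_mem_eq_inf' h.hA x
  have hat' : x a = t := hat.symm
  have hle : ∀ i ∈ A, t ≤ x i := fun i hi => Finset.inf'_le _ hi
  have hnB := h.noB _ hxL
  obtain ⟨b, hbB, hb0⟩ : ∃ b ∈ B, x b = 0 := by
    by_contra hc
    push Not at hc
    apply hnB
    intro b hb
    rw [Finset.mem_filter]
    exact ⟨Finset.mem_univ _, hc b hb⟩
  have hdisj : ∀ i, i ∈ A → i ∉ B := fun i h1 h2 => (Finset.disjoint_left.1 h.disj) h1 h2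
  have vA : ∀ i ∈ A, flpMap A B h.hA x i = x i - t := by
    intro i hi
    unfold flpMap
    rw [if_pos hi, if_neg (hdisj i hi), add_zero]
  have vB : ∀ i ∈ B, flpMap A B h.hA x i = x i + t := by
    intro i hi
    unfold flpMap
    rw [if_neg (fun h1 => hdisj i h1 hi), if_pos hi, sub_zero]
  have vC : ∀ i, i ∉ A → i ∉ B → flpMap A B h.hA x i = x i := by
    intro i h1 h2
    unfold flpMap
    rw [if_neg h1, if_neg h2, sub_zero, add_zero]
  have hinf : B.inf' h.hB (flpMap A B h.hA x) = t := by
    apply le_antisymm
    · refine (Finset.inf'_le _ hbB).trans (le_of_eq ?_)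
      rw [vB b hbB, hb0, zero_add]
    · apply Finset.le_inf'
      intro i hi
      rw [vB i hi]
      have := hx0 i
      linarith
  refine ⟨⟨?_, ?_⟩, hinf⟩
  · intro i
    by_cases h1 : i ∈ A
    · rw [vA i h1]
      have := hle i h1
      linarith
    · by_cases h2 : i ∈ B
      · rw [vB i h2]
        have := hx0 i
        linarith
      · rw [vC i h1 h2]
        exact hx0 i
  · rw [h.new]
    rcases eq_or_lt_of_le ht0 with h0 | h0
    · left
      have e : flpMap A B h.hA x = x := by
        funext i
        by_cases h1 : i ∈ A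
        · rw [vA i h1, ← h0, sub_zero]
        · by_cases h2 : i ∈ B
          · rw [vB i h2, ← h0, add_zero]
          · exact vC i h1 h2
      rw [e]
      refine ⟨hxL, fun hc => ?_⟩
      have := hc haA
      rw [Finset.mem_filter] at this
      exact this.2 (hat'.trans h0.symm)
    · right
      have hAs : A ⊆ univ.filter fun i => x i ≠ 0 := by
        intro i hi
        rw [Finset.mem_filter]
        have := hle i hi
        exact ⟨Finset.mem_univ _, by linarith [this] |> fun h : 0 < x i => h.ne'⟩
      have hst := h.star _ hxL hAs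
      refine ⟨?_, ?_, ?_⟩
      · intro i hi
        rw [Finset.mem_filter, vB i hi]
        have := hx0 i
        exact ⟨Finset.mem_univ _, by linarith [this] |> fun h : 0 < x i + t => h.ne'⟩
      · intro i hi
        rw [Finset.mem_filter] at hi
        by_contra hc
        rw [Finset.mem_union, not_or] at hc
        rw [vC i hc.1 hc.2] at hi
        have := hst (Finset.mem_filter.2 hi)
        rw [Finset.mem_union] at this
        rcases this with h1 | h1
        · exact hc.1 h1
        · exact hc.2 h1
      · intro hc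
        have := hc haA
        rw [Finset.mem_filter, vA a haA, hat', sub_self] at this
        exact this.2 rfl

theorem flp_inv {n : ℕ} {L L' : Set (Finset (Fin n))} {A B : Finset (Fin n)}
    (h : IsFlip L L' A B) (x : Fin n → ℝ) (hx : x ∈ Cone L) :
    flpMap B A h.hB (flpMap A B h.hA x) = x := by
  have h1 := (flp_main h x hx).2
  funext i
  show flpMap A B h.hA x i - (if i ∈ B then B.inf' h.hB (flpMap A B h.hA x) else 0) +
    (if i ∈ A then B.inf' h.hB (flpMap A B h.hA x) else 0) = x i
  rw [h1]
  unfold flpMap
  split_ifs <;> ring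

theorem flp_cont {n : ℕ} (A B : Finset (Fin n)) (hA : A.Nonempty) :
    Continuous (flpMap A B hA) := by
  have hc : Continuous (fun x : Fin n → ℝ => A.inf' hA x) :=
    Continuous.finset_inf'_apply hA (fun i _ => continuous_apply i)
  apply continuous_pi
  intro i
  unfold flpMap
  refine ((continuous_apply i).sub ?_).add ?_
  · by_cases h : i ∈ A
    · simp only [if_pos h]; exact hc
    · simp only [if_neg h]; exact continuous_const
  · by_cases h : i ∈ B
    · simp only [if_pos h]; exact hc
    · simp only [if_neg h]; exact continuous_const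

theorem flp : FLPStmt := by
  intro n L L' A B h
  have h' := flp_symm h
  exact ⟨{
    toFun := fun x => ⟨flpMap A B h.hA x.1, (flp_main h x.1 x.2).1⟩
    invFun := fun y => ⟨flpMap B A h.hB y.1, (flp_main h' y.1 y.2).1⟩
    left_inv := fun x => Subtype.ext (flp_inv h x.1 x.2)
    right_inv := fun y => Subtype.ext (flp_inv h' y.1 y.2)
    continuous_toFun := ((flp_cont A B h.hA).comp continuous_subtype_val).subtype_mk _
    continuous_invFun := ((flp_cont B A h.hB).comp continuous_subtype_val).subtype_mk _ }⟩

end Pool.T4
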